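import Pool.Agent.Y715.Z.Lser
import Pool.Agent.Y699.Qe

/-!
The `L`-series of `y² = x³ + i D x` over the Gaussian field.
-/

set_option autoImplicit false
set_option linter.unusedSectionVars false

open NumberField IsDedekindDomain

namespace Pool.Agent.E8helper36.QI

open scoped Classical
open WeierstrassCurve
open Pool.Agent.Y715.Z
open Pool.Agent.Y699 hiding q4
open Pool.Agent.Y698 (AP min_count v_unit)
open Pool.Agent.W189.NF (aV eV redMap Ov mem_max_iff finite_res card_res redMap_eq_zero aLoc eLoc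
  redMap_surjective)
open Pool.Agent.H921R2.TatePole (nm two_le_nm below)
open H385 (ZI RQ im1 nrm)
open Pool.Agent.W164.RC (tc_mul tc_star Ip Ip_spec)
open Pool.Agent.H304R3.HK (tc HC LH)
open Pool.Agent.H304R2.EC.A1 (prim)
open Pool.Agent.Y696 (HBd LSeries_hasProd')

variable {K : Type} [Field K] [NumberField K] (e : ZI ≃+* 𝓞 K)

/-- the local factors of Mathlib -/
theorem locB {B D : ZI} (hBD : B = im1 * D)
    (hmin : ∀ v : HeightOneSpectrum (𝓞 K), IsMinimal (v.adicCompletionIntegers K)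
      (q4 (algebraMap K (v.adicCompletion K) (em0 e B))))
    {X : ZI →* ℂ} (hX1 : X pi1 = 0) (hX2 : ∀ z : ZI, PP z → z ∣ D → X z = 0)
    (hX3 : ∀ z : ZI, PP z → ¬ z ∣ D → X z = (starRingEnd ℂ) (tc (Pool.Agent.Y699.q4 z (-B))))
    (v : HeightOneSpectrum (𝓞 K)) (s : ℂ) :
    HBd (aV (q4 (em0 e B)) v) (eV (q4 (em0 e B)) v) (nm v) ∧
      (1 - (aV (q4 (em0 e B)) v : ℂ) * (nm v : ℂ) ^ (-s) +
        (eV (q4 (em0 e B)) v : ℂ) * ((nm v : ℂ) ^ (-s)) ^ 2)⁻¹ = g1 X e s v * g2 X e s v := by
  have hsp := pg_span e v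
  set z := pg e v with hz
  have hzp : Prime z := pg_prime e v
  have hodd : (below v : ℕ) ≠ 2 → z ∈ Ip (below v) → PP z := fun h1 h2 =>
    ⟨(Ip_spec (below v).2 h2).2.1, (Ip_spec (below v).2 h2).1⟩
  have hmin := hmin v
  have hbc : (q4 (em0 e B)).baseChange (v.adicCompletion K) =
      q4 (algebraMap K (v.adicCompletion K) (em0 e B)) := q4_map _ _
  have hi1 : IsUnit im1 := IsUnit.of_mul_eq_one (-im1) (by decide)
  have hzB : z ∣ B ↔ z ∣ D := by
    rw [hBD]
    constructor
    · intro h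
      rcases hzp.dvd_or_dvd h with h4 | h4
      · exact absurd (isUnit_of_dvd_unit h4 hi1) hzp.not_isUnit
      · exact h4
    · intro h
      exact h.mul_left _
  have hΔ : (cr4 (e B)).Δ ∈ v.asIdeal ↔ (z = pi1 ∨ z ∣ D) := by
    rw [cr4_Δ]
    have e1 : (-64 : 𝓞 K) * e B ^ 3 = e (-64 * B ^ 3) := by
      rw [map_mul, map_pow, map_neg, map_ofNat]
    rw [e1, mem_iff e hsp]
    constructor
    · intro h
      rcases hzp.dvd_or_dvd h with h4 | h4
      · left
        rcases pg_cases e v with ⟨h1, h2⟩ | ⟨h1, h2⟩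
        · exact h2
        · exfalso
          have e5 : (-64 : ZI) = -(2 ^ 6) := by decide
          rw [e5, dvd_neg] at h4
          exact not_dvd_two (hodd h1 h2) (hzp.dvd_of_dvd_pow h4)
      · exact Or.inr (hzB.1 (hzp.dvd_of_dvd_pow h4))
    · rintro (h | h)
      · rw [h]
        exact (pi1_two.trans ⟨-32, by decide⟩).mul_right _
      · exact (dvd_pow (hzB.2 h) (by norm_num)).mul_left _
  have hΔv : algebraMap K (v.adicCompletion K) (((cr4 (e B)).Δ : 𝓞 K) : K) =
      (q4 (algebraMap K (v.adicCompletion K) (em0 e B))).Δ := by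
    rw [cr4_Δ, q4_Δ]
    show algebraMap K (v.adicCompletion K) (algebraMap (𝓞 K) K ((-64 : 𝓞 K) * e B ^ 3)) = _
    rw [map_mul, map_mul, map_neg, map_neg, map_ofNat, map_ofNat, map_pow, map_pow]
    rfl
  by_cases hb : z = pi1 ∨ z ∣ D
  · have h0 : aV (q4 (em0 e B)) v = 0 ∧ eV (q4 (em0 e B)) v = 0 := by
      unfold aV eV
      rw [hbc]
      refine min_addj (v.adicCompletionIntegers K)
        (not_good_of_min (v.adicCompletionIntegers K) ?_) (j := 1728) ?_ (q4_j _)
      · rw [← hΔv]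
        exact val_lt_of_mem (hΔ.2 hb)
      · have := val_int_le v (1728 : 𝓞 K)
        rw [show ((1728 : 𝓞 K) : K) = (1728 : K) from map_ofNat _ _, map_ofNat] at this
        exact this
    refine ⟨Or.inl h0, ?_⟩
    have hX0 : X z = 0 := by
      rcases pg_cases e v with ⟨h1, h2⟩ | ⟨h1, h2⟩
      · rw [hz, h2, hX1]
      · rcases hb with h | h
        · rw [h, hX1]
        · exact hX2 z (hodd h1 h2) h
    rw [h0.1, h0.2]
    unfold g1 g2
    rw [← hz, hX0]
    simp
  · have hnb := hb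
    push Not at hb
    rcases pg_cases e v with ⟨h1, h2⟩ | ⟨h1, h2⟩
    · exact absurd h2 hb.1
    · have hPP := hodd h1 h2
      have hfin := finite_res v
      have hunit : IsUnit ((cr4 (algebraMap (𝓞 K) (Ov v) (e B))).Δ) := by
        have h3 := isUnit_of_notMem' (fun h => hnb (hΔ.1 h))
        rw [cr4_Δ] at h3 ⊢
        rw [map_mul, map_neg, map_ofNat, map_pow] at h3
        exact h3
      obtain ⟨c1, c2⟩ := min_count (v.adicCompletionIntegers K) hunit
        (W := (q4 (em0 e B)).baseChange (v.adicCompletion K)) (by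
          rw [hbc, cr4_mapL, coe_comp']
          rfl)
      have hAP : Nat.card (AP ((cr4 (algebraMap (𝓞 K) (Ov v) (e B))).map
          (IsLocalRing.residue (Ov v)))) = cnt4 v (Ideal.Quotient.mk v.asIdeal (e B)) := by
        unfold cnt4 AP
        refine (Nat.card_congr (Equiv.subtypeEquiv
          (Equiv.prodCongr (resE v).toEquiv (resE v).toEquiv) fun x => ?_)).symm
        rw [cr4_map, WeierstrassCurve.Affine.equation_iff]
        unfold cr4
        simp only [zero_mul, add_zero]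
        show _ ↔ (resE v x.2) ^ 2 = (resE v x.1) ^ 3 + (redMap v (e B)) * resE v x.1
        rw [← resE_mk, ← map_pow, ← map_pow, ← map_mul, ← map_add, (resE v).injective.eq_iff]
      have ha : aV (q4 (em0 e B)) v = (nm v : ℤ) -
          (cnt4 v (Ideal.Quotient.mk v.asIdeal (e B)) : ℤ) := by
        unfold aV
        rw [c1, hAP, card_res]
      have he : eV (q4 (em0 e B)) v = (nm v : ℤ) := by
        unfold eV
        rw [c2, card_res]
      have hnm : nm v = Ideal.absNorm v.asIdeal := rfl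
      have hBz : ¬ z ∣ B := fun h => hnb (Or.inr (hzB.1 h))
      have h3 := congrArg tc (cnt4_good e hPP hsp hBz)
      rw [tc_int, tc_add] at h3
      have hnd : ¬ z ∣ -B := fun h => hBz ((dvd_neg).1 h)
      set q : ZI := Pool.Agent.Y699.q4 z (-B) with hq
      have h4 : tc q * (starRingEnd ℂ) (tc q) = 1 := by
        rw [← tc_star, ← tc_mul, unit_star_mul (q4_norm hPP hnd), tc_one]
      have h5 : tc z * tc (star z) = ((Ideal.absNorm v.asIdeal : ℕ) : ℂ) := by
        rw [norm_pg e hsp, ← tc_mul, ← Zsqrtd.norm_eq_mul_conj, ← nrm_cast]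
        unfold tc
        simp
      constructor
      · refine Or.inr ⟨tc (star q * z), ?_, ?_, ?_⟩
        · rw [ha, hnm, h3, ← tc_star, star_mul, star_star, mul_comm (star z) q]
        · rw [he, hnm, ← tc_star, star_mul, star_star, tc_mul, tc_mul, tc_star q]
          push_cast
          linear_combination (-((Ideal.absNorm v.asIdeal : ℕ) : ℂ)) * h4 -
            (tc q * (starRingEnd ℂ) (tc q)) * h5
        · rw [hnm, ← tc_star, star_mul, star_star, tc_mul, tc_mul, tc_star q]
          linear_combination (((Ideal.absNorm v.asIdeal : ℕ) : ℂ)) * h4 +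
            (tc q * (starRingEnd ℂ) (tc q)) * h5
      · rw [ha, he, hnm]
        unfold g1 g2
        rw [← hz, hX3 z hPP hb.2, ← hq, ← mul_inv, Complex.conj_conj, h3, tc_mul, tc_mul, tc_star q]
        congr 1
        push_cast
        linear_combination (-(((Ideal.absNorm v.asIdeal : ℕ) : ℂ) ^ (-s)) ^ 2) * h5 -
          (tc z * tc (star z)) * (((Ideal.absNorm v.asIdeal : ℕ) : ℂ) ^ (-s)) ^ 2 * h4

/-- **the `L`-series** -/
theorem LSI_core {B D : ZI} (hBD : B = im1 * D)
    (hmin : ∀ v : HeightOneSpectrum (𝓞 K), IsMinimal (v.adicCompletionIntegers K)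
      (q4 (algebraMap K (v.adicCompletion K) (em0 e B))))
    {c : ZI} {X : ZI →* ℂ} (H : HC c X) (hX1 : X pi1 = 0)
    (hX2 : ∀ z : ZI, PP z → z ∣ D → X z = 0)
    (hX3 : ∀ z : ZI, PP z → ¬ z ∣ D → X z = (starRingEnd ℂ) (tc (Pool.Agent.Y699.q4 z (-B))))
    {s : ℂ} (hs : 3 / 2 < s.re) :
    LSeriesSummable ((fun n : ℤ => (n : ℂ)) ∘ (q4 (em0 e B) : WeierstrassCurve K).LFunction) s ∧
      LG X s = (q4 (em0 e B) : WeierstrassCurve K).LSeries s := by
  obtain ⟨h1, h2⟩ := LSeries_hasProd' (q4 (em0 e B))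
    (fun v => (locB e hBD hmin hX1 hX2 hX3 v s).1) hs
  refine ⟨h1, ?_⟩
  have h3 : HasProd (fun v : HeightOneSpectrum (𝓞 K) => g1 X e s v * g2 X e s v) (LG X s) :=
    (g1_hasProd H hX1 e hs).mul (g2_hasProd H hX1 e hs)
  exact h3.unique (h2.congr_fun fun v => ((locB e hBD hmin hX1 hX2 hX3 v s).2).symm)

end Pool.Agent.E8helper36.QI
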