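import Mathlib
import Pool.Agent.R428.G.Gm

/-!
# Minimality of `y² = x³ + i D x` over `ℚ(i)`
-/

set_option autoImplicit false
set_option linter.unusedSectionVars false

open NumberField IsDedekindDomain

namespace Pool.Agent.E8helper36.QI

open scoped Classical
open WeierstrassCurve WithZero
open Pool.Agent.Y682 (vv vv_coe)
open Pool.Agent.Y699 (PP qr pi1 pi1_prime plc pg pg_span pg_prime plc_pg mem_iff)
open Pool.Agent.Y715.Z (em0 em0_ne em0_inj em0_apply plc_mem val_lt val_le val_one val_z val_sqf ph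
  im1_sq q4 q4_Δ q4_map isMinimal_q4 mem_max approx val_pow_le val_two1 ns_good)
open H385 (ZI RQ im1 nrm)
open Pool.Agent.Y697.MQ (OP Pr Pr_prod Pr_iff)
open Pool.Agent.R428.G (L2 w_i exp_lt_one' lt_succ dvd_pi_of_two l2_place near_one)

section loc

variable {L : Type} [Field L] {w : Valuation L ℤᵐ⁰} {i : L}

/-- the case of a change of variables with a factor in the maximal ideal -/
lemma changeI (H : L2 w i) {A u r s t : L} (hu : u ≠ 0) (hu1 : w u ≤ exp (-1 : ℤ))
    (hA : w (A - i) ≤ exp (-2 : ℤ))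
    (h1' : w (u⁻¹ * (2 * s)) ≤ 1)
    (h3' : w (u⁻¹ ^ 3 * (2 * t)) ≤ 1) (h4' : w (u⁻¹ ^ 4 * (A + 3 * r ^ 2 - 2 * s * t)) ≤ 1) :
    False := by
  have hvu : w u ≠ 0 := (Valuation.ne_zero_iff _).2 hu
  have hcl : ∀ (n : ℕ) (x : L), w (u⁻¹ ^ n * x) ≤ 1 → w x ≤ exp (-(n : ℤ)) := by
    intro n x hx
    rw [map_mul, map_pow, map_inv₀, inv_pow] at hx
    have h5 : w x = w u ^ n * ((w u ^ n)⁻¹ * w x) := by
      rw [← mul_assoc, mul_inv_cancel₀ (pow_ne_zero n hvu), one_mul]
    rw [h5]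
    refine (mul_le_of_le_one_right' hx).trans ?_
    calc w u ^ n ≤ (exp (-1 : ℤ)) ^ n := by gcongr
      _ = exp (-(n : ℤ)) := by rw [← exp_nsmul]; congr 1; simp
  have k1 : w (2 * s) ≤ exp (-1 : ℤ) := by
    have := hcl 1 (2 * s) (by rwa [pow_one])
    simpa using this
  have k3 : w (2 * t) ≤ exp (-3 : ℤ) := hcl 3 _ h3'
  have k4 : w (A + 3 * r ^ 2 - 2 * s * t) ≤ exp (-4 : ℤ) := hcl 4 _ h4'
  have hlt : ∀ n : ℤ, n < 0 → (exp n : ℤᵐ⁰) < 1 := fun n hn => exp_lt_one' hn
  have ht : w t ≤ exp (-1 : ℤ) := by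
    have h5 : exp (-2 : ℤ) * w t ≤ exp (-3 : ℤ) := by
      rw [← H.h2, ← map_mul]
      exact k3
    have h7 : w t = exp (2 : ℤ) * (exp (-2 : ℤ) * w t) := by
      rw [← mul_assoc, ← exp_add]; norm_num
    rw [h7]
    calc exp (2 : ℤ) * (exp (-2 : ℤ) * w t) ≤ exp (2 : ℤ) * exp (-3 : ℤ) := by gcongr
      _ = exp (-1 : ℤ) := by rw [← exp_add]; norm_num
  have hst2 : w (2 * s * t) ≤ exp (-2 : ℤ) := by
    rw [map_mul]
    calc w (2 * s) * w t ≤ exp (-1 : ℤ) * exp (-1 : ℤ) := mul_le_mul' k1 ht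
      _ = exp (-2 : ℤ) := by rw [← exp_add]; norm_num
  have hst : w (2 * s * t) < 1 := lt_of_le_of_lt hst2 (hlt _ (by norm_num))
  have h3 := H.three
  have hwi := w_i (w := w) H.hi
  have hA1 : w A = 1 := by
    have e : A = i + (A - i) := by ring
    rw [e, Valuation.map_add_eq_of_lt_left, hwi]
    rw [hwi]
    exact lt_of_le_of_lt hA (hlt _ (by norm_num))
  -- `r` is a unit
  have hr : w r = 1 := by
    rcases lt_trichotomy (w r) 1 with h5 | h5 | h5
    · exfalso
      have h7 : w (A + 3 * r ^ 2 - 2 * s * t) = 1 := by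
        have h8 : w (A + 3 * r ^ 2) = 1 := by
          rw [Valuation.map_add_eq_of_lt_left, hA1]
          rw [hA1, map_mul, h3, one_mul, map_pow]
          exact pow_lt_one₀ zero_le h5 two_ne_zero
        rw [Valuation.map_sub_eq_of_lt_left, h8]
        rw [h8]; exact hst
      rw [h7] at k4
      exact absurd k4 (not_le.2 (hlt _ (by norm_num)))
    · exact h5
    · exfalso
      have h10 : 1 < w r ^ 2 := one_lt_pow₀ h5 two_ne_zero
      have h7 : w (A + 3 * r ^ 2 - 2 * s * t) = w r ^ 2 := by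
        have h9 : w (3 * r ^ 2) = w r ^ 2 := by rw [map_mul, h3, one_mul, map_pow]
        have h8 : w (A + 3 * r ^ 2) = w r ^ 2 := by
          rw [Valuation.map_add_eq_of_lt_right, h9]
          rw [hA1, h9]; exact h10
        rw [Valuation.map_sub_eq_of_lt_left, h8]
        rw [h8]; exact hst.trans h10
      rw [h7] at k4
      exact absurd h10 (not_lt.2 (k4.trans (hlt _ (by norm_num)).le))
  have hr2 := H.sq hr
  have h42 : w (2 * (2 * r ^ 2)) ≤ exp (-2 : ℤ) := by
    rw [map_mul, map_mul, map_pow, hr, one_pow, mul_one, H.h2, ← exp_add, exp_le_exp]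
    norm_num
  have k4' : w (A + 3 * r ^ 2 - 2 * s * t) ≤ exp (-2 : ℤ) :=
    k4.trans (exp_le_exp.2 (by norm_num))
  have hlam : w (1 + i) ≤ exp (-2 : ℤ) := by
    have e : i * (1 + i) = (((A + 3 * r ^ 2 - 2 * s * t) + 2 * s * t) -
        (2 * (2 * r ^ 2) - (r ^ 2 - 1))) - (A - i) := by
      linear_combination H.hi
    have e2 : w (i * (1 + i)) ≤ exp (-2 : ℤ) := by
      rw [e]
      refine (Valuation.map_sub _ _ _).trans (max_le ((Valuation.map_sub _ _ _).trans (max_le
        ((Valuation.map_add _ _ _).trans (max_le k4' hst2))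
        ((Valuation.map_sub _ _ _).trans (max_le h42 hr2)))) hA)
    rwa [map_mul, hwi, one_mul] at e2
  rw [H.lam, exp_le_exp] at hlam
  norm_num at hlam

end loc

section

variable {K : Type} [Field K] [NumberField K] (e : ZI ≃+* 𝓞 K)

/-- **minimality** -/
theorem minI {D : ZI} (hsq : Squarefree D) (hD3 : pi1 ^ 3 ∣ D - 1)
    (v : HeightOneSpectrum (𝓞 K)) :
    WeierstrassCurve.IsMinimal (v.adicCompletionIntegers K)
      (q4 (algebraMap K (v.adicCompletion K) (em0 e (im1 * D)))) := by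
  have hbc : q4 (algebraMap K (v.adicCompletion K) (em0 e (im1 * D))) =
      q4 (algebraMap (v.adicCompletionIntegers K) (v.adicCompletion K)
        (algebraMap (𝓞 K) (v.adicCompletionIntegers K) (e (im1 * D)))) := by
    congr 1
  rw [hbc]
  apply isMinimal_q4
  rw [← hbc]
  intro C hC u₀ hu₀ hu
  obtain ⟨z, hz, rfl⟩ : ∃ (z : ZI) (hz : Prime z), v = plc e hz :=
    ⟨_, pg_prime e v, (plc_pg e v).symm⟩
  set w := vv (plc e hz) with hw
  have hu1 : w ((C.u : _ˣ) : (plc e hz).adicCompletion K) < 1 := by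
    rw [← hu]
    exact (mem_max _ _).1 hu₀
  have hu2 : w ((C.u : _ˣ) : (plc e hz).adicCompletion K) ≤ exp (-1 : ℤ) := by
    rw [← exp_zero] at hu1
    have := lt_succ hu1
    simpa using this
  obtain ⟨⟨W₀, hW₀⟩⟩ := hC
  have hint : ∀ a : (plc e hz).adicCompletionIntegers K,
      w (algebraMap _ ((plc e hz).adicCompletion K) a) ≤ 1 := fun a =>
    (HeightOneSpectrum.mem_adicCompletionIntegers (𝓞 K) K (plc e hz)).1 a.2
  have b1 : w (C • q4 (ph e hz (em0 e (im1 * D)))).a₁ ≤ 1 := by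
    rw [hW₀]; exact hint _
  have b3 : w (C • q4 (ph e hz (em0 e (im1 * D)))).a₃ ≤ 1 := by
    rw [hW₀]; exact hint _
  have b4 : w (C • q4 (ph e hz (em0 e (im1 * D)))).a₄ ≤ 1 := by
    rw [hW₀]; exact hint _
  have bΔ : w (C • q4 (ph e hz (em0 e (im1 * D)))).Δ ≤ 1 := by
    rw [hW₀]
    have : (W₀.baseChange ((plc e hz).adicCompletion K)).Δ =
        algebraMap _ ((plc e hz).adicCompletion K) W₀.Δ := WeierstrassCurve.map_Δ _ _
    rw [this]
    exact hint _
  obtain ⟨u, hu'⟩ : ∃ u : (plc e hz).adicCompletion K, u = ((C.u : _ˣ) : (plc e hz).adicCompletion K) :=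
    ⟨_, rfl⟩
  have hu0 : u ≠ 0 := by rw [hu']; exact C.u.ne_zero
  have huinv : ((C.u⁻¹ : _ˣ) : (plc e hz).adicCompletion K) = u⁻¹ := by
    rw [Units.val_inv_eq_inv_val, hu']
  rw [← hu'] at hu2
  have hI : (ph e hz (em0 e im1)) ^ 2 = -1 := by
    rw [← map_pow, im1_sq, map_neg, map_one]
  have hwi : w (ph e hz (em0 e im1)) = 1 := w_i hI
  have hmul : ph e hz (em0 e (im1 * D)) = ph e hz (em0 e im1) * ph e hz (em0 e D) := by
    rw [map_mul, map_mul]
  by_cases h2 : z ∣ 2
  · -- above two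
    have hpl := dvd_pi_of_two e (K := K) hz h2
    have hL2 := l2_place e _ hpl
    have hn := near_one e hD3 _ hpl
    have hA : w (ph e hz (em0 e (im1 * D)) - ph e hz (em0 e im1)) ≤ exp (-2 : ℤ) := by
      have e1 : ph e hz (em0 e (im1 * D)) - ph e hz (em0 e im1) =
          ph e hz (em0 e im1) * (ph e hz (em0 e D) - 1) := by
        rw [hmul]
        ring
      rw [e1, map_mul, hwi, one_mul]
      exact hn.trans (exp_le_exp.2 (by norm_num))
    refine changeI hL2 (r := C.r) (s := C.s) (t := C.t) hu0 hu2 hA ?_ ?_ ?_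
    · rw [WeierstrassCurve.variableChange_a₁, huinv] at b1
      simpa [q4] using b1
    · rw [WeierstrassCurve.variableChange_a₃, huinv] at b3
      simpa [q4] using b3
    · rw [WeierstrassCurve.variableChange_a₄, huinv] at b4
      simpa [q4] using b4
  · -- away from two: the discriminant
    rw [WeierstrassCurve.variableChange_Δ, huinv, q4_Δ, map_mul, map_pow, map_inv₀, inv_pow] at bΔ
    have hwu : w u ≠ 0 := (Valuation.ne_zero_iff _).2 hu0
    have h64 : w (-64 * ph e hz (em0 e (im1 * D)) ^ 3) ≤ w u ^ 12 := by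
      have h5 : w (-64 * ph e hz (em0 e (im1 * D)) ^ 3) =
          w u ^ 12 * ((w u ^ 12)⁻¹ * w (-64 * ph e hz (em0 e (im1 * D)) ^ 3)) := by
        rw [← mul_assoc, mul_inv_cancel₀ (pow_ne_zero 12 hwu), one_mul]
      rw [h5]
      exact mul_le_of_le_one_right' bΔ
    have hw2 : w (2 : (plc e hz).adicCompletion K) = 1 := by
      have := val_one e hz h2
      rw [map_ofNat] at this
      have h3 : (2 : (plc e hz).adicCompletion K) = ph e hz 2 := (map_ofNat _ 2).symm
      rw [hw, h3, vv_coe, this]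
    have hw64 : w (-64 : (plc e hz).adicCompletion K) = 1 := by
      have : (-64 : (plc e hz).adicCompletion K) = -(2 ^ 6) := by norm_num
      rw [this, Valuation.map_neg, map_pow, hw2, one_pow]
    have hwD : exp (-1 : ℤ) ≤ w (ph e hz (em0 e D)) := by
      by_cases hd : z ∣ D
      · rw [hw, vv_coe, val_sqf e hz hsq hd]
      · rw [hw, vv_coe, val_one e hz hd, ← exp_zero, exp_le_exp]
        norm_num
    rw [map_mul, hw64, one_mul, hmul, map_pow, map_mul, hwi, one_mul] at h64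
    have h12 : (exp (-3 : ℤ) : ℤᵐ⁰) ≤ exp (-12 : ℤ) := by
      calc (exp (-3 : ℤ) : ℤᵐ⁰) = (exp (-1 : ℤ)) ^ 3 := by
            rw [← exp_nsmul]; rfl
        _ ≤ w (ph e hz (em0 e D)) ^ 3 := by gcongr
        _ ≤ w u ^ 12 := h64
        _ ≤ (exp (-1 : ℤ)) ^ 12 := by gcongr
        _ = exp (-12 : ℤ) := by rw [← exp_nsmul]; rfl
    rw [exp_le_exp] at h12
    norm_num at h12

end

end Pool.Agent.E8helper36.QI
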