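import Pool.Agent.E8helper75.QI.Stm
import Pool.Agent.E8helper36.QI.MinA
import Pool.Agent.E8helper36.QI.LsA
import Pool.Agent.E8helper36.QI.SelA

/-!
# Project QI: `S_MINI`, `S_LSI` (given `S_MINI`), `S_SHAI`
-/

set_option autoImplicit false

namespace Pool.Agent.E8helper36.QI

open Pool.Agent.E8helper75.QI (BI S_MINI S_LSI S_SHAI)

theorem t_MINI : S_MINI := fun _K _ _ e _S hS v =>
  minI e (Pool.Agent.R428.G.sqf_prod hS) (Pool.Agent.R428.G.pi_dvd hS) v

theorem t_LSI (h : S_MINI) : S_LSI := fun K _ _ e S hS _c _X H h1 h2 h3 _s hs =>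
  LSI_core (K := K) e (B := BI S) (D := ∏ l ∈ S, l) rfl (h K e S hS) H h1 h2 h3 hs

theorem t_SHAI : S_SHAI := fun _K _ _ e _S hS hker _W hT => sha_rankI e hS hker hT

end Pool.Agent.E8helper36.QI
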